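import Pool.Agent.N631.SX.RMain

/-!
# Reachability oracles: cells made from exclusive ors of answers and protocols

A directed graph with `n` vertices and at most `n` arcs is preprocessed. A query `(x, y)` asks whether
there is a directed path from `x` to `y`. The oracles of the theorem (`RCell`) consist of cells. The
arcs are divided into those with a tail less than `n / 2` and the others. The content of every cell (an
element of any set `Γ`) is an arbitrary function of `r` bits and of the `d` bits of a protocol of two
players, who know one of the two classes of arcs each. Every one of the `r` bits is the exclusive or of

* the answers to the queries in any set `P` of pairs of vertices (any size, fixed in advance),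
* an arbitrary function of the first class of arcs,
* an arbitrary function of the second class of arcs.

So a cell can be an arbitrary function of the answers for any `r` pairs of vertices, or a word with
`w = r` such bits, or the result of any joint computation of the two players with `d` bits of
communication. The queries are adaptive and may be computed in any way. The oracle may be random; for
all graphs and all `(x, y)` it has to read at most `t` cells and to answer correctly with probability at
least `1 / 2 + δ`. Only the `s` cells in which answers enter (some `P` is not empty) count as space;
the cells which are computed by protocols are free. We show

  `δ ^ 10 * n ^ 2 ≤ 10 ^ 22 * ((r + d) * t) ^ 4 * (r * s + 1)`.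

So in this model, for constant `δ` and words of polylogarithmic length, query time `T` requires space
`n ^ 2 / (T ^ 4 polylog n)`, and polylogarithmic query time requires space `Ω~(n ^ 2)`. The question
asks whether already `T = o~(n)` requires this space. The model contains the table of the answers, all
linear codes and compressions of it over the field with two elements, all codes in which every cell
depends on few answers, and any representation of each of the two classes of arcs. (Since the arcs of
one class are known for free, searching in one class costs as many probes as bits are read.)

The starting result `AdaptiveJointProbe` on this page is about another model: there the cells are
arbitrary functions of the graph, but only one of them is read.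

Proof. The graphs have `k` sources, `u` middle vertices and `k` targets; the sets of the heads of the
arcs from the sources, and of the tails of the arcs to the targets, are two halves of a family of sets.
An answer for a pair of vertices is constant, or a function of one class of arcs, or it says, for a
source and a target, whether two sets intersect. So an oracle is a data structure for emptiness
queries, of the kind of `Pool.Agent.Results.MP_f326ae_lc.EmptinessTables`, where the proof for these
is described.
-/

set_option autoImplicit false

namespace Pool.Agent.Results.MP_dd2a0a_lc.AnswerTables

open Pool.Agent.N631.SX

/-- A random reachability oracle for directed graphs with `n` vertices and at most `n` arcs, in which the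
content of every cell is an arbitrary function of `r ≥ 1` exclusive ors of answers, of a function of
the arcs with a tail less than `n / 2` and of a function of the other arcs, and of the `d` bits of a
protocol between these two classes of arcs, which answers every query correctly, reading at most
`t ≥ 1` cells, with probability at least `1 / 2 + δ`, and in which answers enter at most `s` cells,
satisfies `δ ^ 10 * n ^ 2 ≤ 10 ^ 22 * ((r + d) * t) ^ 4 * (r * s + 1)`. -/
theorem result (n c r d t s : ℕ) (Γ : Type) (hr : 1 ≤ r) (ht : 1 ≤ t) (δ : ℝ) (hδ : 0 < δ)
    (hδ2 : δ ≤ 1 / 2) (Ω : Type) [Fintype Ω] (p : Ω → ℝ) (D : Ω → RCell n c r d Γ)
    (hs : ∀ ω, (D ω).space ≤ s) (hD : RSolves p D t δ) :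
    δ ^ 10 * (n : ℝ) ^ 2 ≤ 10 ^ 22 * (((r : ℝ) + d) * t) ^ 4 * (r * s + 1) :=
  r_main n t r d ht hr δ hδ hδ2 c s Γ Ω p D hs hD

end Pool.Agent.Results.MP_dd2a0a_lc.AnswerTables
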